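import Pool.Agent.W758.AHC.Stm2

set_option autoImplicit false

namespace Pool.Agent.W372.AHC

open Pool.Agent.W758.AHC

lemma FF_pos (p : ℕ) : 0 < FF p := by
  unfold FF
  have : (0 : ℚ) < (1 / 2) ^ p := by positivity
  linarith

lemma FF_anti {p q : ℕ} (h : p ≤ q) : FF q ≤ FF p := by
  unfold FF
  have : ((1 : ℚ) / 2) ^ q ≤ (1 / 2) ^ p := pow_le_pow_of_le_one (by norm_num) (by norm_num) h
  linarith

lemma FF0 : FF 0 = 1 := by norm_num [FF]
lemma FF1 : FF 1 = 5 / 6 := by norm_num [FF]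
lemma FF2 : FF 2 = 3 / 4 := by norm_num [FF]
lemma FF3 : FF 3 = 17 / 24 := by norm_num [FF]
lemma FF4 : FF 4 = 11 / 16 := by norm_num [FF]
lemma FF5 : FF 5 = 65 / 96 := by norm_num [FF]
lemma FF6 : FF 6 = 43 / 64 := by norm_num [FF]
lemma FF7 : FF 7 = 257 / 384 := by norm_num [FF]
lemma FF8 : FF 8 = 171 / 256 := by norm_num [FF]

lemma step {p q k : ℕ} (a b : ℚ) (ha : FF p ≤ a) (hb : FF q ≤ b)
    (h : (a * b) ^ 2 * (4 * k + 3 + 2 * p + 2 * q) ≤ 4 * k + 1) :
    (FF p * FF q) ^ 2 * (4 * k + 3 + 2 * p + 2 * q) ≤ 4 * k + 1 := by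
  have h1 : FF p * FF q ≤ a * b :=
    mul_le_mul ha hb (FF_pos q).le ((FF_pos p).le.trans ha)
  have h2 : (FF p * FF q) ^ 2 ≤ (a * b) ^ 2 :=
    pow_le_pow_left₀ (mul_pos (FF_pos p) (FF_pos q)).le h1 2
  have h3 : (0 : ℚ) ≤ 4 * k + 3 + 2 * p + 2 * q := by positivity
  exact (mul_le_mul_of_nonneg_right h2 h3).trans h

lemma core {k p q : ℕ} (hk : 2 ≤ k) (hqp : q ≤ p) (hp1 : 1 ≤ p) (hpk : p ≤ 2 * k + 1)
    (h5 : ¬ (k = 2 ∧ p = 5 ∧ q = 0)) (h1 : ¬ (k = 2 ∧ p = 1 ∧ q = 0)) :
    (FF p * FF q) ^ 2 * (4 * k + 3 + 2 * p + 2 * q) ≤ 4 * k + 1 := by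
  have hkq : (2 : ℚ) ≤ k := by exact_mod_cast hk
  have hpkq : (p : ℚ) ≤ 2 * k + 1 := by exact_mod_cast hpk
  have hqpq : (q : ℚ) ≤ p := by exact_mod_cast hqp
  rcases Nat.lt_or_ge q 2 with hq | hq
  · interval_cases q
    · -- q = 0
      rcases Nat.lt_or_ge p 8 with hp | hp
      · interval_cases p
        · have : 3 ≤ k := by omega
          have h3 : (3 : ℚ) ≤ k := by exact_mod_cast this
          refine step _ _ FF1.le FF0.le ?_
          push_cast; nlinarith
        · refine step _ _ FF2.le FF0.le ?_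
          push_cast; nlinarith
        · refine step _ _ FF3.le FF0.le ?_
          push_cast; nlinarith
        · refine step _ _ FF4.le FF0.le ?_
          push_cast; nlinarith
        · have : 3 ≤ k := by omega
          have h3 : (3 : ℚ) ≤ k := by exact_mod_cast this
          refine step _ _ FF5.le FF0.le ?_
          push_cast; nlinarith
        · have : 3 ≤ k := by omega
          have h3 : (3 : ℚ) ≤ k := by exact_mod_cast this
          refine step _ _ FF6.le FF0.le ?_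
          push_cast; nlinarith
        · have : 3 ≤ k := by omega
          have h3 : (3 : ℚ) ≤ k := by exact_mod_cast this
          refine step _ _ FF7.le FF0.le ?_
          push_cast; nlinarith
      · have h8 : (8 : ℚ) ≤ p := by exact_mod_cast hp
        refine step _ _ ((FF_anti hp).trans FF8.le) FF0.le ?_
        push_cast; nlinarith
    · -- q = 1
      rcases Nat.lt_or_ge p 6 with hp | hp
      · interval_cases p
        · refine step _ _ FF1.le FF1.le ?_
          push_cast; nlinarith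
        · refine step _ _ FF2.le FF1.le ?_
          push_cast; nlinarith
        · refine step _ _ FF3.le FF1.le ?_
          push_cast; nlinarith
        · refine step _ _ FF4.le FF1.le ?_
          push_cast; nlinarith
        · refine step _ _ FF5.le FF1.le ?_
          push_cast; nlinarith
      · have h8 : (6 : ℚ) ≤ p := by exact_mod_cast hp
        refine step _ _ ((FF_anti hp).trans FF6.le) FF1.le ?_
        push_cast; nlinarith
  · have hq2 : FF q ≤ 3 / 4 := (FF_anti hq).trans FF2.le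
    rcases Nat.lt_or_ge p 6 with hp | hp
    · have hp2 : 2 ≤ p := hq.trans hqp
      interval_cases p
      · refine step _ _ FF2.le hq2 ?_
        push_cast at *; nlinarith
      · refine step _ _ FF3.le hq2 ?_
        push_cast at *; nlinarith
      · refine step _ _ FF4.le hq2 ?_
        push_cast at *; nlinarith
      · refine step _ _ FF5.le hq2 ?_
        push_cast at *; nlinarith
    · have h8 : (6 : ℚ) ≤ p := by exact_mod_cast hp
      refine step _ _ ((FF_anti hp).trans FF6.le) hq2 ?_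
      push_cast; nlinarith

lemma fin (hCC : S_CC) {k p q : ℕ} (hk : 2 ≤ k)
    (h : (FF p * FF q) ^ 2 * (4 * k + 3 + 2 * p + 2 * q) ≤ 4 * k + 1) :
    FF p * FF q * cc k ≤ cc (k + (1 + p + q) / 2) := by
  obtain ⟨-, -, -, hpos, -, hmon, -⟩ := hCC
  set t := (1 + p + q) / 2 with ht
  have ht2 : 2 * t ≤ 1 + p + q := by omega
  have ht2q : (2 : ℚ) * t ≤ 1 + p + q := by exact_mod_cast ht2
  have h1 := hmon k t
  have hX : (0 : ℚ) < 4 * (k + t) + 1 := by positivity
  have h2 : (FF p * FF q) ^ 2 * (4 * (k + t) + 1) ≤ 4 * k + 1 := by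
    refine le_trans (mul_le_mul_of_nonneg_left ?_ (sq_nonneg _)) h
    linarith
  have h3 : (FF p * FF q * cc k) ^ 2 * (4 * (k + t) + 1) ≤
      cc (k + t) ^ 2 * (4 * (k + t) + 1) := by
    calc (FF p * FF q * cc k) ^ 2 * (4 * (k + t) + 1)
        = cc k ^ 2 * ((FF p * FF q) ^ 2 * (4 * (k + t) + 1)) := by ring
      _ ≤ cc k ^ 2 * (4 * k + 1) := mul_le_mul_of_nonneg_left h2 (sq_nonneg _)
      _ ≤ _ := h1
  have h4 : (FF p * FF q * cc k) ^ 2 ≤ cc (k + t) ^ 2 := le_of_mul_le_mul_right h3 hX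
  exact le_of_sq_le_sq' h4 (hpos _).le
where
  le_of_sq_le_sq' {a b : ℚ} (h : a ^ 2 ≤ b ^ 2) (hb : 0 ≤ b) : a ≤ b :=
    le_of_abs_le ((abs_le_abs_of_sq_le_sq h).trans (abs_of_nonneg hb).le)
  abs_le_abs_of_sq_le_sq {a b : ℚ} (h : a ^ 2 ≤ b ^ 2) : |a| ≤ |b| := sq_le_sq.mp h

lemma half (hCC : S_CC) {k p q : ℕ} (hk : 2 ≤ k) (hqp : q ≤ p) (hpk : p ≤ 2 * k + 1)
    (h5 : ¬ (k = 2 ∧ p = 5 ∧ q = 0)) :
    FF p * FF q * cc k ≤ cc (k + (1 + p + q) / 2) := by
  rcases Nat.eq_zero_or_pos p with rfl | hp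
  · obtain rfl : q = 0 := by omega
    rw [FF0]
    norm_num
  · by_cases h1 : k = 2 ∧ p = 1 ∧ q = 0
    · obtain ⟨rfl, rfl, rfl⟩ := h1
      have e2 : cc 2 = 3 / 8 := by
        have : Nat.centralBinom 2 = 6 := by decide
        rw [cc, this]; norm_num
      have e3 : cc 3 = 5 / 16 := by
        have : Nat.centralBinom 3 = 20 := by decide
        rw [cc, this]; norm_num
      have : 2 + (1 + 1 + 0) / 2 = 3 := by norm_num
      rw [this, e2, e3, FF0, FF1]
      norm_num
    · exact fin hCC hk (core hk hqp hp hpk h5 h1)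

theorem star1 : S_STAR1 := by
  intro hCC k p q hk hp hq hne
  rcases le_total q p with h | h
  · refine half hCC hk h hp ?_
    rintro ⟨h1, h2, h3⟩
    exact hne ⟨h1, Or.inl ⟨h2, h3⟩⟩
  · have := half hCC hk h hq (by
      rintro ⟨h1, h2, h3⟩
      exact hne ⟨h1, Or.inr ⟨h3, h2⟩⟩)
    rw [mul_comm (FF p), show (1 + p + q) / 2 = (1 + q + p) / 2 by congr 1; omega]
    exact this

end Pool.Agent.W372.AHC
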